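import Pool.Agent.Q30.VRDfa

namespace Pool.Agent.Results.MP_7325c9_al.ConjGeoRegular

open Q30.VR

/-- For every finite simple graph and every graph automorphism, the conjugacy geodesic language of
the virtual right-angled Artin group over its standard generating set is regular. -/
theorem result (V : Type) [Fintype V] (Γ : SimpleGraph V) (φ : Γ ≃g Γ) :
    (ConjGeo (stdGen Γ φ)).IsRegular :=
  regular φ

end Pool.Agent.Results.MP_7325c9_al.ConjGeoRegular
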